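import Pool.Agent.N20.DI.Fin

/-!
# Dade's invariant conjecture for cyclic quotients follows from the ordinary conjecture

`p` is a prime, `G` a normal subgroup of the finite group `E`, `Ē = E/G`, `U ≤ Ē`. Blocks of `G` are
given by their central characters (`IsBlock`); `red` is a reduction map from the algebraic integers to the
algebraically closed field `F` of characteristic `p`. `kdU p red G B d U σ` is the problem's
`k_C(B, d, U)`, `kdGe p red G B d U σ` the same with `N_Ē(C, ψ) ≥ U`
(`Pool/Agent/N20/DI/Stm2.lean`), where `σ` is the set of the members `≠ 1` of the chain `C`;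
`radSum p G f = ∑_C (-1)^|C| f(C)`, over representatives of the `G`-classes of radical `p`-chains
(`Pool/Agent/N20/DI/Stm3.lean`); `DadeInv p red G` is Q1 for `p`, `G`, `E` (all `B`, `d`, `U`), and
`DadeInv p red (⊤ : Subgroup Q)` is Dade's ordinary conjecture for the group `Q`
(`Pool/Agent/N20/DI/Fin.lean`).

Outline of the proof. For `G ≤ K ≤ E` with `K/G` cyclic the characters of the stabilisers `N_K(C)` of the
chains `C` of `p`-subgroups of `G` are counted by Clifford theory for cyclic quotients: above a character
`ψ` of `N_G(C)` with inertial quotient `V` lie `|V|` characters, whose defects are determined by that of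
`ψ`. The alternating sum over the chains of `K`, which vanishes up to contributions of complements, that
is of the `p`-subgroups `P` with `G ∩ P = 1` (by the ordinary conjecture for the groups `N_K(P)/P`), is
compared with the sum over the chains of `G`; induction over the subgroups of `U`. Blocks of `G`, `N_K(C)`
and `N_G(C)` are compared through central functions of `E` with support in `G`.
-/

set_option autoImplicit false

noncomputable section

namespace Pool.Agent.Results.MP_baa4d7_al.CyclicExtensions

open Pool.Agent.Y63.NV (IsBlock numDzBlock)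
open Pool.Agent.N20.DI (kdGe radSum DadeInv DadeLoc)

/-- Let `p` be a prime.
(1) Dade's ordinary conjecture holds for all finite groups if and only if Dade's invariant conjecture
holds for all finite groups `E` with a normal subgroup `G` such that `E/G` is cyclic.
(2) Let `G` be normal in the finite group `E` with `E/G` cyclic. If the ordinary conjecture holds for the
groups `N_K(P)/P`, where `G ≤ K ≤ E` and `P` is a `p`-subgroup of `K` with `G ∩ P = 1` (`P = 1` allowed),
then the invariant conjecture holds for `G`, `E`.
(3) Let `G` be normal in the finite group `E` (`E/G` arbitrary) and let `U` be a cyclic subgroup of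
`E/G`. If the ordinary conjecture holds for the groups `N_K(P)/P`, where `G ≤ K`, `K/G ≤ U` and `P` is as
in (2), then `∑_C (-1)^|C| #{ψ ∈ Irr(N_G(C)) | d(ψ) = d, b(ψ)^G = B, N_Ē(C, ψ) ≥ U} = 0` for all `d` and all
blocks `B` of `G` with nontrivial defect groups. -/
theorem result (p : ℕ) [Fact p.Prime] (F : Type) [Field F] [IsAlgClosed F] [CharP F p]
    (red : integralClosure ℤ ℂ →+* F) :
    ((∀ (E : Type) [Group E] [Finite E], DadeInv p red (⊤ : Subgroup E)) ↔
      ∀ (E : Type) [Group E] [Finite E] (G : Subgroup E) [G.Normal], IsCyclic (E ⧸ G) →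
        DadeInv p red G) ∧
    (∀ (E : Type) [Group E] [Finite E] (G : Subgroup E) [G.Normal], IsCyclic (E ⧸ G) →
      (∀ K : Subgroup E, G ≤ K → DadeLoc p red G K) → DadeInv p red G) ∧
    ∀ (E : Type) [Group E] [Finite E] (G : Subgroup E) [G.Normal] (U : Subgroup (E ⧸ G)),
      IsCyclic U → (∀ V ≤ U, DadeLoc p red G (V.comap (QuotientGroup.mk' G))) →
      ∀ B : (G → F) → F, IsBlock B → numDzBlock p red B = 0 → ∀ d : ℕ,
        radSum p G (fun σ => (kdGe p red G B d U σ : ℤ)) = 0 :=
  ⟨Pool.Agent.N20.DI.main_iff red,
    fun E _ _ G _ hc h => Pool.Agent.N20.DI.main_cyclic red hc h,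
    fun E _ _ G _ U hU h B hB hB0 d => Pool.Agent.N20.DI.main_ge red hU h hB hB0 d⟩

end Pool.Agent.Results.MP_baa4d7_al.CyclicExtensions
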