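import Pool.Agent.U259.GF.Main

/-!
# Dade's conjecture for cyclic quotients: Galois-fixed characters modulo a prime decide

`p` is a prime, `G` a normal subgroup of the finite group `E`. Blocks of `G` are given by their central
characters `Z(F G) → F`, as functions `B : (G → F) → F` (`Pool.Agent.Y63.NV.IsBlock`); `red` is a reduction
map from the algebraic integers to an algebraically closed field `F` of characteristic `p`.

* `DadeInv p red G` (`Pool/Agent/N20/DI/Fin.lean`) is Q1 for `p`, `G`, `E`: if `O_p(G) = 1`, then for all
  blocks `B` of `G` with nontrivial defect groups, all `d` and all `U ≤ E/G` the alternating sum of the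
  `k_C(B, d, U)` over representatives of the `G`-classes of radical `p`-chains `C` is `0`.
* `centralValue red χ f`: the value of the reduced central character of `χ` at `f`. For `χ ∈ Irr(H)`,
  `H ≤ G` the stabiliser of a chain, `bl(χ)^G = B` means `centralValue red χ (f|_H) = B f` for all class
  functions `f` of `G`.
* `numDzBlock p red B`: the number of the irreducible characters of defect zero in `B`; it is `0` if and
  only if the defect groups of `B` are nontrivial.
* `alternatingSum p G f`: `∑_σ (-1)^|σ| f(G_σ)` over representatives of the `G`-classes of chains of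
  nontrivial `p`-subgroups, the empty chain included.
* `IsIdem e`: `e` is a class function on which all blocks take the values `0` and `1`. `Wr q G`: the wreath
  product `G ≀ C_q`; `wrF q e`: the element `e ⊗ ⋯ ⊗ e` of the centre of its group algebra, supported on
  the base group `G^q`.

Proof. A group `Γ` of automorphisms of `ℂ` which fixes the roots of unity of order prime to `p` fixes all
`p`-blocks (the values of the central characters are in `ℤ[ζ_n]`, where such automorphisms do not change
the residues). If it acts on the roots of unity as a `q`-group, then the number of the characters of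
defect `d` of `G_σ` in blocks inducing `B` is congruent modulo `q` to the number of those fixed by `Γ`. By
the recursions for the sums of `G ≀ C_q` (`Pool.Agent.U259.WD`) divisibility of all sums by `q` implies that
they vanish, and by the library theorem `Pool.Agent.N20.DI.equiv_conj` the case `E = G` implies the case of
cyclic `E/G`.
-/

set_option autoImplicit false

noncomputable section

namespace Pool.Agent.Results.MP_baa4d7_al.GaloisFixedCharacters

open Pool.Agent.Y63.NV (IsBlock IsClassFun centralValue numDzBlock)
open Pool.Agent.Y63.AWC (IsIrreducibleCharacter)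
open Pool.Agent.Y63.KR (alternatingSum)
open Pool.Agent.N85.WM (Wr wrF IsIdem)
open Pool.Agent.N20.DI (DadeInv)

/-- `χ` has `p`-defect `d`: `p^d = |J|_p / χ(1)_p`. -/
def Defect (p d : ℕ) {J : Type} [Group J] (χ : J → ℂ) : Prop :=
  ∃ n : ℕ, χ 1 = n ∧ n.factorization p + d = (Nat.card J).factorization p

/-- `χ` is fixed by all field automorphisms in `Γ`. -/
def FixedBy (Γ : Subgroup (RingAut ℂ)) {J : Type} (χ : J → ℂ) : Prop :=
  ∀ σ ∈ Γ, ∀ x : J, σ (χ x) = χ x

/-- The elements of `Γ` fix all roots of unity of order prime to `p`, and `Γ` acts on the `n`-th roots of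
unity as a `q`-group, for all `n`: the `q ^ k`-th powers of its elements fix them, for some `k`. -/
structure ActsAs (p q : ℕ) (Γ : Subgroup (RingAut ℂ)) : Prop where
  reg : ∀ σ ∈ Γ, ∀ m : ℕ, ¬ p ∣ m → ∀ z : ℂ, z ^ m = 1 → σ z = z
  pow : ∀ n : ℕ, n ≠ 0 → ∃ k : ℕ, ∀ σ ∈ Γ, ∀ z : ℂ, z ^ n = 1 → (σ ^ q ^ k : RingAut ℂ) z = z

/-- The group of the automorphisms of `ℂ` which fix all roots of unity of order not divisible by `p ^ 2`.
The characters of finite groups fixed by it are the almost `p`-rational ones: their values are in
`ℚ(ζ_{pm})` with `m` prime to `p`. For `p = 2` these are the `2`-rational characters. -/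
def almostRational (p : ℕ) : Subgroup (RingAut ℂ) where
  carrier := {σ | ∀ n : ℕ, ¬ p ^ 2 ∣ n → ∀ z : ℂ, z ^ n = 1 → σ z = z}
  one_mem' := (Pool.Agent.U259.GF.Rt p).one_mem'
  mul_mem' := (Pool.Agent.U259.GF.Rt p).mul_mem'
  inv_mem' := (Pool.Agent.U259.GF.Rt p).inv_mem'

/-- `G` has no nontrivial normal `p`-subgroup, and `B` is a block of `G` without characters of defect
zero, that is, with nontrivial defect groups. -/
structure Adm (p : ℕ) {F : Type} [Field F] (red : integralClosure ℤ ℂ →+* F) {G : Type} [Group G]
    (B : (G → F) → F) : Prop where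
  op : ∀ P : Subgroup G, P.Normal → IsPGroup p P → P = ⊥
  block : IsBlock B
  defect : numDzBlock p red B = 0

/-- Dade's alternating sum `∑_σ (-1)^|σ| k^d(B_σ)` of the numbers of the characters `χ ∈ Irr(G_σ)` of
`p`-defect `d` with `bl(χ)^G = B`, over representatives of the `G`-classes of chains `σ` of nontrivial
`p`-subgroups, the empty chain included. -/
def S (p : ℕ) {F : Type} [Field F] (red : integralClosure ℤ ℂ →+* F) (d : ℕ) {G : Type} [Group G]
    (B : (G → F) → F) : ℤ :=
  alternatingSum p G (fun H => (Nat.card {χ : H → ℂ // IsIrreducibleCharacter χ ∧ Defect p d χ ∧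
    ∀ f : G → F, IsClassFun f → centralValue red χ (fun x => f x) = B f} : ℤ))

/-- The same sum for the characters fixed by `Γ`. -/
def SFixed (p : ℕ) {F : Type} [Field F] (red : integralClosure ℤ ℂ →+* F)
    (Γ : Subgroup (RingAut ℂ)) (d : ℕ) {G : Type} [Group G] (B : (G → F) → F) : ℤ :=
  alternatingSum p G (fun H => (Nat.card {χ : H → ℂ // IsIrreducibleCharacter χ ∧ Defect p d χ ∧
    (∀ f : G → F, IsClassFun f → centralValue red χ (fun x => f x) = B f) ∧ FixedBy Γ χ} : ℤ))

/-- The same sum for the characters of the `G_σ` fixed by `Γ` of defect `d` whose reduced central character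
takes the value `1` at the restriction of `e`, an element of the centre of the group algebra. -/
def SeFixed (p : ℕ) {F : Type} [Field F] (red : integralClosure ℤ ℂ →+* F)
    (Γ : Subgroup (RingAut ℂ)) (d : ℕ) (G : Type) [Group G] (e : G → F) : ℤ :=
  alternatingSum p G (fun H => (Nat.card {χ : H → ℂ // IsIrreducibleCharacter χ ∧ Defect p d χ ∧
    centralValue red χ (fun x => e x) = 1 ∧ FixedBy Γ χ} : ℤ))

/-- The sum `SeFixed` for the `j`-th iterated wreath product `(⋯((G ≀ C_q) ≀ C_q)⋯) ≀ C_q` and its
element `(⋯(e ⊗ ⋯ ⊗ e)⋯)`. -/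
def SeFixedN (p q : ℕ) [NeZero q] {F : Type} [Field F] (red : integralClosure ℤ ℂ →+* F)
    (Γ : Subgroup (RingAut ℂ)) (d : ℕ) : ℕ → (G : Type) → [Group G] → (G → F) → ℤ
  | 0, G, _, e => SeFixed p red Γ d G e
  | j + 1, G, _, e => SeFixedN p q red Γ d j (Wr q G) (wrF q e)

/-- **Galois-fixed characters modulo a prime decide.** Let `p` be any prime.
(1) The group `almostRational p` acts as a `p`-group on roots of unity and fixes those of order prime to
`p`, so (2) applies to it with `q = p`: it suffices to count the almost `p`-rational characters modulo `p`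
(for `p = 2`, the `2`-rational characters modulo `2`).
(2) Let `q` be a prime (`q = p` is allowed) and let `Γ` be a group of automorphisms of `ℂ` which fixes the
roots of unity of order prime to `p` and acts on the `n`-th roots of unity, for each `n`, as a `q`-group.
(a) Q1 holds for all finite groups `E` with a normal subgroup `G` such that `E/G` is cyclic if and only if
for all finite groups `G` with `O_p(G) = 1`, all blocks `B` of `G` with nontrivial defect groups and all `d`
the alternating sum of the numbers of the characters of the `G_σ` fixed by `Γ`, of defect `d`, with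
`bl(χ)^G = B`, is divisible by `q`.
(b) Let `X` be a class of groups closed (for finite groups) under `G ↦ G ≀ C_q`. For the groups `G` in `X`
with `O_p(G) = 1` and blocks `B` with nontrivial defect groups all Dade sums `S_d(B)` (the case `E = G` of
Q1) are `0` if and only if the sums of the numbers of the characters fixed by `Γ` are all divisible by `q`.
(c) For a block `B` of a finite group `G` with idempotent `e`, all `S_d(B)` are `0` if and only if for all
iterated wreath products of `G` with `C_q` the sums of the numbers of the characters over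
`e ⊗ ⋯ ⊗ e` fixed by `Γ` are divisible by `q`. -/
theorem result (p : ℕ) [Fact p.Prime] (F : Type) [Field F] [IsAlgClosed F] [CharP F p]
    (red : integralClosure ℤ ℂ →+* F) :
    ActsAs p p (almostRational p) ∧
    ∀ (q : ℕ) [Fact q.Prime] (Γ : Subgroup (RingAut ℂ)), ActsAs p q Γ →
      ((∀ (E : Type) [Group E] [Finite E] (G : Subgroup E) [G.Normal], IsCyclic (E ⧸ G) →
          DadeInv p red G) ↔
        ∀ (G : Type) [Group G] [Finite G] (B : (G → F) → F), Adm p red B →
          ∀ d, (q : ℤ) ∣ SFixed p red Γ d B) ∧
      (∀ X : ∀ (G : Type) [Group G], Prop,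
        (∀ (G : Type) [Group G] [Finite G], X G → X (Wr q G)) →
        ((∀ (G : Type) [Group G] [Finite G], X G → ∀ B : (G → F) → F, Adm p red B →
            ∀ d, S p red d B = 0) ↔
          ∀ (G : Type) [Group G] [Finite G], X G → ∀ B : (G → F) → F, Adm p red B →
            ∀ d, (q : ℤ) ∣ SFixed p red Γ d B)) ∧
      ∀ (G : Type) [Group G] [Finite G] (B : (G → F) → F), IsBlock B →
        ∃ e : G → F, IsIdem e ∧ B e = 1 ∧
          (∀ B' : (G → F) → F, IsBlock B' → B' e = 1 → ∀ f : G → F, IsClassFun f → B' f = B f) ∧
          ((∀ d, S p red d B = 0) ↔ ∀ j d : ℕ, (q : ℤ) ∣ SeFixedN p q red Γ d j G e) := by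
  refine ⟨⟨(Pool.Agent.U259.GF.rt_adm p).reg, (Pool.Agent.U259.GF.rt_adm p).pow⟩,
    fun q _ Γ hΓ => ?_⟩
  have h : Pool.Agent.U259.GF.Adm p q Γ := ⟨hΓ.reg, hΓ.pow⟩
  refine ⟨?_, fun X hX => ?_, fun G _ _ B hB => ?_⟩
  · rw [Pool.Agent.U259.GF.cyc_iff red h]
    exact ⟨fun h1 G _ _ B hB => h1 G hB.op B hB.block hB.defect,
      fun h1 G _ _ ho B hB hz => h1 G B ⟨ho, hB, hz⟩⟩
  · have h1 := Pool.Agent.U259.GF.ord_iff red h X hX
    exact ⟨fun h2 G _ _ hG B hB => h1.1 (fun G _ _ hG ho B hB hz => h2 G hG B ⟨ho, hB, hz⟩) G hG
      hB.op B hB.block hB.defect, fun h2 G _ _ hG B hB => h1.2 (fun G _ _ hG ho B hB hz =>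
        h2 G hG B ⟨ho, hB, hz⟩) G hG hB.op B hB.block hB.defect⟩
  · obtain ⟨e, he⟩ := Pool.Agent.U259.WP.exists_sep hB
    refine ⟨e, he.1, he.2.1, fun B' hB' h f hf => (he.2.2 B' hB' h f hf).symm, ?_⟩
    have hSe : ∀ (d j : ℕ) (G : Type) [Group G] (e : G → F),
        SeFixedN p q red Γ d j G e = Pool.Agent.U259.GF.SEN red Γ p q d j G e := by
      intro d j
      induction j with
      | zero => intro G _ e; rfl
      | succ j ih => intro G _ e; exact ih (Wr q G) (wrF q e)
    have h1 : (∀ d, S p red d B = 0) ↔ ∀ d, Pool.Agent.U259.WD.Sd p red d G e 1 = 0 :=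
      forall_congr' fun d => by
        have h2 : S p red d B = Pool.Agent.U259.WD.Sd p red d G e 1 :=
          Pool.Agent.U259.WD.sbd_sep red he d
        rw [h2]
    rw [h1, Pool.Agent.U259.WD.tower_zero red q G e he.1]
    refine forall_congr' fun j => forall_congr' fun d => ?_
    rw [hSe]
    exact Pool.Agent.U259.GF.dvd_SEN red h d j G e

end Pool.Agent.Results.MP_baa4d7_al.GaloisFixedCharacters
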