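import Pool.Agent.U259.UV.Fst

/-!
# Dade's conjecture for cyclic quotients: an omitted residue class decides

`p` is a prime, `G` a normal subgroup of the finite group `E`. Blocks of `G` are given by their central
characters `Z(F G) → F`, as functions `B : (G → F) → F` (`Pool.Agent.Y63.NV.IsBlock`); `red` is a reduction
map from the algebraic integers to an algebraically closed field `F` of characteristic `p`.

* `DadeInv p red G` (`Pool/Agent/N20/DI/Fin.lean`) is Q1 for `p`, `G`, `E`: if `O_p(G) = 1`, then for all
  blocks `B` of `G` with nontrivial defect groups, all `d` and all `U ≤ E/G` the alternating sum of the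
  `k_C(B, d, U)` over representatives of the `G`-classes of radical `p`-chains `C` is `0`.
* `centralValue red χ f`: the value of the reduced central character of `χ` at `f`. For `χ ∈ Irr(H)`,
  `H ≤ G` the stabiliser of a chain, `bl(χ)^G = B` means `centralValue red χ (f|_H) = B f` for all class
  functions `f` of `G`.
* `numDzBlock p red B`: the number of the irreducible characters of defect zero in `B`; it is `0` if and
  only if the defect groups of `B` are nontrivial.
* `alternatingSum p G f`: `∑_σ (-1)^|σ| f(G_σ)` over representatives of the `G`-classes of chains of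
  nontrivial `p`-subgroups, the empty chain included. `Wr q G`: the wreath product `G ≀ C_q`.

Proof. Let `B` be a block with nontrivial defect groups. It has at least two irreducible characters
(`Pool.Agent.U259.UV.two_of_noDz`), and so, for every prime `q`, all characters of `G ≀ C_q` over
`B ⊗ ⋯ ⊗ B` are in one block `B'` (`Pool.Agent.U259.UB.uniq`). For `q ≠ p` the generating functions satisfy
`q F_{B'}(x) = F_B(x)^q + (q² - 1) F_B(x^q)`. So, if `s x^d` is the lowest term of `F_B`, then
`F_{B'}` has no terms of degree less than `dq`, and its coefficient `s'` there satisfies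
`q s' = s^q + (q² - 1) s`. Let `r ≠ p` be a prime. With `q = r` one obtains a lowest coefficient prime to
`r`, with direct powers one which is `1` modulo `r^K`, then, with `q = ℓ ≠ p`, the residue class of `ℓ`, and
with direct products all residue classes. By the library theorem `Pool.Agent.N20.DI.equiv_conj` the case
`E = G` implies the case of cyclic `E/G`.
-/

set_option autoImplicit false

noncomputable section

namespace Pool.Agent.Results.MP_baa4d7_al.OmittedResidueDecides

open Pool.Agent.Y63.NV (IsBlock IsClassFun centralValue numDzBlock)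
open Pool.Agent.Y63.AWC (IsIrreducibleCharacter)
open Pool.Agent.Y63.KR (alternatingSum)
open Pool.Agent.N85.WM (Wr)
open Pool.Agent.N20.DI (DadeInv)

/-- `χ` has `p`-defect `d`: `p^d = |J|_p / χ(1)_p`. -/
def Defect (p d : ℕ) {J : Type} [Group J] (χ : J → ℂ) : Prop :=
  ∃ n : ℕ, χ 1 = n ∧ n.factorization p + d = (Nat.card J).factorization p

/-- `G` has no nontrivial normal `p`-subgroup, and `B` is a block of `G` without characters of defect
zero, that is, with nontrivial defect groups. -/
structure Adm (p : ℕ) {F : Type} [Field F] (red : integralClosure ℤ ℂ →+* F) {G : Type} [Group G]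
    (B : (G → F) → F) : Prop where
  op : ∀ P : Subgroup G, P.Normal → IsPGroup p P → P = ⊥
  block : IsBlock B
  defect : numDzBlock p red B = 0

/-- Dade's alternating sum `∑_σ (-1)^|σ| k^d(B_σ)` of the numbers of the characters `χ ∈ Irr(G_σ)` of
`p`-defect `d` with `bl(χ)^G = B`, over representatives of the `G`-classes of chains `σ` of nontrivial
`p`-subgroups, the empty chain included. -/
def S (p : ℕ) {F : Type} [Field F] (red : integralClosure ℤ ℂ →+* F) (d : ℕ) {G : Type} [Group G]
    (B : (G → F) → F) : ℤ :=
  alternatingSum p G (fun H => (Nat.card {χ : H → ℂ // IsIrreducibleCharacter χ ∧ Defect p d χ ∧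
    ∀ f : G → F, IsClassFun f → centralValue red χ (fun x => f x) = B f} : ℤ))

/-- `s` is the first nonzero member of the sequence `S_0(B), S_1(B), …`. -/
def First (p : ℕ) {F : Type} [Field F] (red : integralClosure ℤ ℂ →+* F) {G : Type} [Group G]
    (B : (G → F) → F) (s : ℤ) : Prop :=
  s ≠ 0 ∧ ∃ d, (∀ i < d, S p red i B = 0) ∧ S p red d B = s

/-- **An omitted residue class decides.** Let `p` be any prime. For the blocks `B` with nontrivial defect
groups of the finite groups `G` with `O_p(G) = 1` consider the first nonzero member, if there is one, of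
Dade's sums `S_0(B), S_1(B), …`.
(1) Let `X` be a class of groups closed (for finite groups) under direct products and under `G ↦ G ≀ C_q`
for all primes `q ≠ p`. Then all `S_d(B)` (the case `E = G` of Q1) with `G` in `X` are `0` if and only if
at least one residue class modulo at least one power of a prime `r ≠ p` contains no first nonzero member.
(2) Q1 holds for all finite groups `E` with a normal subgroup `G` such that `E/G` is cyclic if and only if
at least one residue class modulo at least one power of a prime `r ≠ p` contains no first nonzero member,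
for all `G` and `B`. -/
theorem result (p : ℕ) [Fact p.Prime] (F : Type) [Field F] [IsAlgClosed F] [CharP F p]
    (red : integralClosure ℤ ℂ →+* F) :
    (∀ X : ∀ (G : Type) [Group G], Prop,
      (∀ (G H : Type) [Group G] [Group H] [Finite G] [Finite H], X G → X H → X (G × H)) →
      (∀ (q : ℕ) [Fact q.Prime] (G : Type) [Group G] [Finite G], q ≠ p → X G → X (Wr q G)) →
      ((∀ (G : Type) [Group G] [Finite G], X G → ∀ B : (G → F) → F, Adm p red B →
          ∀ d, S p red d B = 0) ↔
        ∃ (r n : ℕ) (c : ℤ), r.Prime ∧ r ≠ p ∧ ∀ (G : Type) [Group G] [Finite G], X G →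
          ∀ B : (G → F) → F, Adm p red B → ∀ s : ℤ, First p red B s →
            ¬ s ≡ c [ZMOD (r : ℤ) ^ n])) ∧
    ((∀ (E : Type) [Group E] [Finite E] (G : Subgroup E) [G.Normal], IsCyclic (E ⧸ G) →
        DadeInv p red G) ↔
      ∃ (r n : ℕ) (c : ℤ), r.Prime ∧ r ≠ p ∧ ∀ (G : Type) [Group G] [Finite G]
        (B : (G → F) → F), Adm p red B → ∀ s : ℤ, First p red B s →
          ¬ s ≡ c [ZMOD (r : ℤ) ^ n]) := by
  have main : ∀ X : ∀ (G : Type) [Group G], Prop,
      (∀ (G H : Type) [Group G] [Group H] [Finite G] [Finite H], X G → X H → X (G × H)) →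
      (∀ (q : ℕ) [Fact q.Prime] (G : Type) [Group G] [Finite G], q ≠ p → X G → X (Wr q G)) →
      ((∀ (G : Type) [Group G] [Finite G], X G → ∀ B : (G → F) → F, Adm p red B →
          ∀ d, S p red d B = 0) ↔
        ∃ (r n : ℕ) (c : ℤ), r.Prime ∧ r ≠ p ∧ ∀ (G : Type) [Group G] [Finite G], X G →
          ∀ B : (G → F) → F, Adm p red B → ∀ s : ℤ, First p red B s →
            ¬ s ≡ c [ZMOD (r : ℤ) ^ n]) := by
    intro X hm hw
    constructor
    · intro h
      obtain ⟨r, hr, hrp⟩ : ∃ r : ℕ, r.Prime ∧ r ≠ p := by
        by_cases h2 : p = 2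
        · exact ⟨3, Nat.prime_three, by omega⟩
        · exact ⟨2, Nat.prime_two, fun h3 => h2 h3.symm⟩
      refine ⟨r, 1, 1, hr, hrp, fun G _ _ hG B hB s hs => ?_⟩
      obtain ⟨hs0, d, -, hd⟩ := hs
      exact (hs0 (by rw [← hd, h G hG B hB d])).elim
    · rintro ⟨r, n, c, hr, hrp, h⟩
      by_contra hne
      push Not at hne
      obtain ⟨G, _, _, hG, B, hB, d, hd⟩ := hne
      obtain ⟨N, s, hs0, hs⟩ := Pool.Agent.U259.UV.lw_init red hG hB.block hB.defect hd
      obtain ⟨x, ⟨N', hx⟩, hx0, hxc⟩ := (Pool.Agent.U259.UV.clW (p := p) (X := X) red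
        (fun q _ G _ _ => hw q G) (fun G H _ _ _ _ => hm G H)).all (Fact.out) hr hrp
        ⟨N, hs⟩ hs0 n c
      obtain ⟨G', _, _, hG', -, ho, B', hB', hz', d', h1, h2⟩ :=
        Pool.Agent.U259.UV.lw_out red hx0 hx
      exact h G' hG' B' ⟨ho, hB', hz'⟩ x ⟨hx0, d', h1, h2⟩ hxc
  refine ⟨main, ?_⟩
  rw [Pool.Agent.U259.UV.cyc_zero red]
  have h1 := main (fun _ _ => True) (fun _ _ _ _ _ _ _ _ => trivial)
    (fun _ _ _ _ _ _ _ => trivial)
  constructor
  · intro h
    obtain ⟨r, n, c, hr, hrp, h2⟩ := h1.1 (fun G _ _ _ B hB d => h G hB.op B hB.block hB.defect d)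
    exact ⟨r, n, c, hr, hrp, fun G _ _ B hB => h2 G trivial B hB⟩
  · rintro ⟨r, n, c, hr, hrp, h2⟩ G _ _ ho B hB hz d
    exact h1.2 ⟨r, n, c, hr, hrp, fun G _ _ _ B hB => h2 G B hB⟩ G trivial B ⟨ho, hB, hz⟩ d

end Pool.Agent.Results.MP_baa4d7_al.OmittedResidueDecides
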