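import Pool.Agent.U259.UV.Fst
import Pool.Agent.U259.UB.Bnd

/-!
# Dade's conjecture for cyclic quotients: one-sided logarithmic bounds decide

`p` is a prime, `G` a normal subgroup of the finite group `E`. Blocks of `G` are given by their central
characters `Z(F G) → F`, as functions `B : (G → F) → F` (`Pool.Agent.Y63.NV.IsBlock`); `red` is a reduction
map from the algebraic integers to an algebraically closed field `F` of characteristic `p`.

* `DadeInv p red G` (`Pool/Agent/N20/DI/Fin.lean`) is Q1 for `p`, `G`, `E`: if `O_p(G) = 1`, then for all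
  blocks `B` of `G` with nontrivial defect groups, all `d` and all `U ≤ E/G` the alternating sum of the
  `k_C(B, d, U)` over representatives of the `G`-classes of radical `p`-chains `C` is `0`.
* `centralValue red χ f`: the value of the reduced central character of `χ` at `f`. For `χ ∈ Irr(H)`,
  `H ≤ G` the stabiliser of a chain, `bl(χ)^G = B` means `centralValue red χ (f|_H) = B f` for all class
  functions `f` of `G`.
* `numDzBlock p red B`: the number of the irreducible characters of defect zero in `B`; it is `0` if and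
  only if the defect groups of `B` are nontrivial.
* `alternatingSum p G f`: `∑_σ (-1)^|σ| f(G_σ)` over representatives of the `G`-classes of chains of
  nontrivial `p`-subgroups, the empty chain included.

Proof. The case of cyclic `E/G` is equivalent to the vanishing of all `S_d(B)` (library theorem
`Pool.Agent.N20.DI.equiv_conj`). Exactly one block `B'` of `G ≀ C_p` lies over `B`, and if `s x^d`, `d ≥ 2`, is
the lowest term of `F_B(x) = ∑_d S_d(B) x^d`, then `-p s x^(d+1)` is the lowest term of `F_{B'}`
(`Pool.Agent.U259.UB`, used for `MP_3f89b9_al.OneSidedBounds`). By iteration one obtains both signs and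
growth of the order `log |G|`.
-/

set_option autoImplicit false

noncomputable section

namespace Pool.Agent.Results.MP_baa4d7_al.OneSidedLogBound

open Pool.Agent.Y63.NV (IsBlock IsClassFun centralValue numDzBlock)
open Pool.Agent.Y63.AWC (IsIrreducibleCharacter)
open Pool.Agent.Y63.KR (alternatingSum)
open Pool.Agent.N20.DI (DadeInv)

/-- `χ` has `p`-defect `d`: `p^d = |J|_p / χ(1)_p`. -/
def Defect (p d : ℕ) {J : Type} [Group J] (χ : J → ℂ) : Prop :=
  ∃ n : ℕ, χ 1 = n ∧ n.factorization p + d = (Nat.card J).factorization p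

/-- `G` has no nontrivial normal `p`-subgroup, and `B` is a block of `G` without characters of defect
zero, that is, with nontrivial defect groups. -/
structure Adm (p : ℕ) {F : Type} [Field F] (red : integralClosure ℤ ℂ →+* F) {G : Type} [Group G]
    (B : (G → F) → F) : Prop where
  op : ∀ P : Subgroup G, P.Normal → IsPGroup p P → P = ⊥
  block : IsBlock B
  defect : numDzBlock p red B = 0

/-- Dade's alternating sum `∑_σ (-1)^|σ| k^d(B_σ)` of the numbers of the characters `χ ∈ Irr(G_σ)` of
`p`-defect `d` with `bl(χ)^G = B`, over representatives of the `G`-classes of chains `σ` of nontrivial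
`p`-subgroups, the empty chain included. -/
def S (p : ℕ) {F : Type} [Field F] (red : integralClosure ℤ ℂ →+* F) (d : ℕ) {G : Type} [Group G]
    (B : (G → F) → F) : ℤ :=
  alternatingSum p G (fun H => (Nat.card {χ : H → ℂ // IsIrreducibleCharacter χ ∧ Defect p d χ ∧
    ∀ f : G → F, IsClassFun f → centralValue red χ (fun x => f x) = B f} : ℤ))

/-- **One-sided logarithmic bounds decide.** Let `p` be any prime. The following are equivalent.
(a) Q1 holds for all finite groups `E` with a normal subgroup `G` such that `E/G` is cyclic.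
(b) For every `ε > 0` there is `c` with `S_d(B) ≤ c + ε log |G|` for all finite groups `G` with
`O_p(G) = 1`, all blocks `B` of `G` with nontrivial defect groups and all `d`.
(c) For every `ε > 0` there is `c` with `S_d(B) ≥ -(c + ε log |G|)` for all of them.
So Q1 holds for all cyclic `E/G` if the `S_d(B)` are bounded above, or bounded below, by a constant. -/
theorem result (p : ℕ) [Fact p.Prime] (F : Type) [Field F] [IsAlgClosed F] [CharP F p]
    (red : integralClosure ℤ ℂ →+* F) :
    List.TFAE
      [∀ (E : Type) [Group E] [Finite E] (G : Subgroup E) [G.Normal], IsCyclic (E ⧸ G) →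
          DadeInv p red G,
       ∀ ε : ℝ, 0 < ε → ∃ c : ℝ, ∀ (G : Type) [Group G] [Finite G] (B : (G → F) → F),
          Adm p red B → ∀ d, (S p red d B : ℝ) ≤ c + ε * Real.log (Nat.card G),
       ∀ ε : ℝ, 0 < ε → ∃ c : ℝ, ∀ (G : Type) [Group G] [Finite G] (B : (G → F) → F),
          Adm p red B → ∀ d, -(c + ε * Real.log (Nat.card G)) ≤ (S p red d B : ℝ)] := by
  have hlog : ∀ (G : Type) [Group G] [Finite G] (ε : ℝ), 0 < ε →
      0 ≤ ε * Real.log (Nat.card G) := by
    intro G _ _ ε hε
    have h1 : (1 : ℝ) ≤ Nat.card G := by exact_mod_cast Nat.card_pos (α := G)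
    exact mul_nonneg hε.le (Real.log_nonneg h1)
  rw [Pool.Agent.U259.UV.cyc_zero red]
  have back : ∀ σ : ℤ, (σ = 1 ∨ σ = -1) →
      (∀ ε : ℝ, 0 < ε → ∃ c : ℝ, ∀ (G : Type) [Group G] [Finite G] (B : (G → F) → F),
        Adm p red B → ∀ d, ((σ * S p red d B : ℤ) : ℝ) ≤ c + ε * Real.log (Nat.card G)) →
      ∀ (G : Type) [Group G] [Finite G], Pool.Agent.U259.WP.Op1 p G → ∀ B : (G → F) → F,
        IsBlock B → numDzBlock p red B = 0 → ∀ d, Pool.Agent.U259.WD.SBd p red d B = 0 := by
    intro σ hσ h G _ _ _ B hB hz d
    by_contra hd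
    obtain ⟨N, s, hs, h1⟩ := Pool.Agent.U259.UB.low_init (X := fun _ _ => True) red
      (fun _ _ _ _ => trivial) trivial hB hz hd
    refine Pool.Agent.U259.UB.no_log red (fun _ _ _ _ => trivial) h1 hs hσ fun ε hε => ?_
    obtain ⟨c, hc⟩ := h ε hε
    refine ⟨c, fun N' s' h2 h3 => ?_⟩
    obtain ⟨G', _, _, -, rfl, h4, B', h5, h6, d', rfl⟩ := Pool.Agent.U259.UB.low_out red h3 h2
    exact hc G' B' ⟨h4, h5, h6⟩ d'
  tfae_have 1 → 2 := by
    intro h ε hε
    refine ⟨0, fun G _ _ B hB d => ?_⟩
    have h1 : S p red d B = 0 := h G hB.op B hB.block hB.defect d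
    have := hlog G ε hε
    rw [h1, Int.cast_zero]
    linarith
  tfae_have 1 → 3 := by
    intro h ε hε
    refine ⟨0, fun G _ _ B hB d => ?_⟩
    have h1 : S p red d B = 0 := h G hB.op B hB.block hB.defect d
    have := hlog G ε hε
    rw [h1, Int.cast_zero]
    linarith
  tfae_have 2 → 1 := by
    intro h
    refine back 1 (Or.inl rfl) fun ε hε => ?_
    obtain ⟨c, hc⟩ := h ε hε
    refine ⟨c, fun G _ _ B hB d => ?_⟩
    rw [one_mul]
    exact hc G B hB d
  tfae_have 3 → 1 := by
    intro h
    refine back (-1) (Or.inr rfl) fun ε hε => ?_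
    obtain ⟨c, hc⟩ := h ε hε
    refine ⟨c, fun G _ _ B hB d => ?_⟩
    have h1 := hc G B hB d
    rw [neg_one_mul, Int.cast_neg]
    linarith
  tfae_finish

end Pool.Agent.Results.MP_baa4d7_al.OneSidedLogBound
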